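import Pool.Agent.helper7.OC.Defs
import Pool.Agent.Lib.SieveInterval
import Pool.Agent.helper12.OC.BB0

/-! Project OC, module BB4: the sieve in `y`. -/

set_option autoImplicit false

open Finset
open Pool.Agent.Lib.BrunHooley (Z)

namespace Pool.Agent.helper7.OC

/-- residues `v` modulo `D` with `D ∣ M + (g v)²` -/
def bb4R (g M D : ℕ) : Finset ℕ := (range D).filter fun v => D ∣ M + (g * v) ^ 2

theorem bb4_modEq (g M a v v' : ℕ) (h : v ≡ v' [MOD a]) :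
    M + (g * v) ^ 2 ≡ M + (g * v') ^ 2 [MOD a] :=
  Nat.ModEq.add_left _ ((h.mul_left g).pow 2)

theorem bb4_dvd (g M a v v' : ℕ) (h : v ≡ v' [MOD a]) (hd : a ∣ M + (g * v) ^ 2) :
    a ∣ M + (g * v') ^ 2 :=
  (Nat.modEq_zero_iff_dvd).1 (((bb4_modEq g M a v v' h).symm).trans (Nat.modEq_zero_iff_dvd.2 hd))

theorem bb4_mul (g M a b : ℕ) (ha : 0 < a) (hb : 0 < b) (hab : a.Coprime b) :
    (bb4R g M (a * b)).card ≤ (bb4R g M a).card * (bb4R g M b).card := by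
  rw [← card_product]
  refine card_le_card_of_injOn (fun v => (v % a, v % b)) ?_ ?_
  · intro v hv
    rw [mem_coe, bb4R, mem_filter] at hv
    rw [mem_coe, mem_product, bb4R, bb4R, mem_filter, mem_filter, mem_range, mem_range]
    exact ⟨⟨Nat.mod_lt _ ha, bb4_dvd g M a v _ (Nat.mod_modEq v a).symm
        ((dvd_mul_right a b).trans hv.2)⟩,
      ⟨Nat.mod_lt _ hb, bb4_dvd g M b v _ (Nat.mod_modEq v b).symm
        ((dvd_mul_left b a).trans hv.2)⟩⟩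
  · intro v hv v' hv' he
    rw [mem_coe, bb4R, mem_filter, mem_range] at hv hv'
    simp only [Prod.mk.injEq] at he
    have h1 : v ≡ v' [MOD a * b] :=
      (Nat.modEq_and_modEq_iff_modEq_mul hab).1 ⟨he.1, he.2⟩
    exact Nat.ModEq.eq_of_lt_of_lt h1 hv.1 hv'.1

theorem bb4_prod (g M : ℕ) (S : Finset ℕ) (hS : ∀ ℓ ∈ S, ℓ.Prime) :
    (bb4R g M (∏ ℓ ∈ S, ℓ)).card ≤ ∏ ℓ ∈ S, (bb4R g M ℓ).card := by
  induction S using Finset.induction_on with
  | empty =>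
    rw [prod_empty, prod_empty]
    calc (bb4R g M 1).card ≤ (range 1).card := card_filter_le _ _
      _ = 1 := by simp
  | insert q S hq ih =>
    rw [prod_insert hq, prod_insert hq]
    have hS' : ∀ ℓ ∈ S, ℓ.Prime := fun ℓ hℓ => hS ℓ (mem_insert_of_mem hℓ)
    have hqp : q.Prime := hS q (mem_insert_self _ _)
    refine (bb4_mul g M q _ hqp.pos (prod_pos (fun ℓ hℓ => (hS' ℓ hℓ).pos)) ?_).trans
      (Nat.mul_le_mul_left _ (ih hS'))
    refine Nat.Coprime.prod_right (fun ℓ hℓ => ?_)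
    exact (Nat.coprime_primes hqp (hS' ℓ hℓ)).2 (fun e => hq (e ▸ hℓ))

theorem bb4_card (μ D M : ℕ) (hD : Squarefree D) (h5 : ∀ ℓ ∈ D.primeFactors, 2 < ℓ)
    (hM : M % 4 = 3) :
    ((bb4R (2 ^ μ) M D).card : ℝ) ≤ ∏ ℓ ∈ D.primeFactors, (1 + J ℓ M) := by
  have h1 := bb4_prod (2 ^ μ) M D.primeFactors (fun ℓ hℓ => Nat.prime_of_mem_primeFactors hℓ)
  rw [Nat.prod_primeFactors_of_squarefree hD] at h1
  calc ((bb4R (2 ^ μ) M D).card : ℝ) ≤ ((∏ ℓ ∈ D.primeFactors, (bb4R (2 ^ μ) M ℓ).card : ℕ) : ℝ) := by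
        exact_mod_cast h1
    _ = ∏ ℓ ∈ D.primeFactors, (1 + J ℓ M) := by
        push_cast
        refine prod_congr rfl (fun ℓ hℓ => ?_)
        have hp := Nat.prime_of_mem_primeFactors hℓ
        have h2 : ℓ ≠ 2 := by
          have := h5 ℓ hℓ
          omega
        refine roots ℓ M (2 ^ μ) hp h2 hM ?_
        intro h
        exact h2 ((Nat.prime_dvd_prime_iff_eq hp Nat.prime_two).1 (hp.dvd_of_dvd_pow h))

theorem bb4_J (ℓ M : ℕ) : -1 ≤ J ℓ M ∧ J ℓ M ≤ 1 := by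
  unfold J
  rcases jacobiSym.trichotomy (ℓ : ℤ) M with h | h | h <;> rw [h] <;> constructor <;> norm_num

theorem bb4_fiber (D Y v : ℕ) (Q : ℕ → Prop) [DecidablePred Q] :
    ((Icc 1 Y).filter fun y => Q y ∧ y % D = v).card ≤ Y / D + 1 := by
  rw [← card_range (Y / D + 1)]
  refine card_le_card_of_injOn (fun y => y / D) ?_ ?_
  · intro y hy
    rw [mem_coe, mem_filter, mem_Icc] at hy
    rw [mem_coe, mem_range]
    exact Nat.lt_succ_of_le (Nat.div_le_div_right hy.1.2)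
  · intro y hy y' hy' he
    rw [mem_coe, mem_filter] at hy hy'
    have he' : y / D = y' / D := he
    rw [← Nat.div_add_mod y D, ← Nat.div_add_mod y' D, he', hy.2.2, hy'.2.2]

/-- without sieve -/
theorem ycount_plain (μ D M Y : ℕ) (hD : Squarefree D) (h5 : ∀ ℓ ∈ D.primeFactors, 2 < ℓ)
    (hM : M % 4 = 3) :
    (((Icc 1 Y).filter fun y => D ∣ M + (2 ^ μ * y) ^ 2).card : ℝ)
      ≤ (∏ ℓ ∈ D.primeFactors, (1 + J ℓ M)) * ((Y : ℝ) / D + 1) := by
  have hD0 : 0 < D := Nat.pos_of_ne_zero hD.ne_zero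
  have h1 : ((Icc 1 Y).filter fun y => D ∣ M + (2 ^ μ * y) ^ 2).card
      ≤ (bb4R (2 ^ μ) M D).card * (Y / D + 1) := by
    rw [card_eq_sum_card_fiberwise (f := fun y => y % D) (t := bb4R (2 ^ μ) M D)]
    · rw [← smul_eq_mul, ← sum_const]
      refine sum_le_sum (fun v _ => ?_)
      rw [filter_filter]
      exact bb4_fiber D Y v _
    · intro y hy
      rw [mem_coe, mem_filter] at hy
      rw [mem_coe, bb4R, mem_filter, mem_range]
      exact ⟨Nat.mod_lt _ hD0, bb4_dvd _ M D y _ (Nat.mod_modEq y D).symm hy.2⟩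
  have h2 := bb4_card μ D M hD h5 hM
  have h3 : ((Y / D : ℕ) : ℝ) ≤ (Y : ℝ) / D := Nat.cast_div_le
  calc (((Icc 1 Y).filter fun y => D ∣ M + (2 ^ μ * y) ^ 2).card : ℝ)
      ≤ (bb4R (2 ^ μ) M D).card * (((Y / D : ℕ) : ℝ) + 1) := by exact_mod_cast h1
    _ ≤ (∏ ℓ ∈ D.primeFactors, (1 + J ℓ M)) * ((Y : ℝ) / D + 1) := by
        refine mul_le_mul h2 (by linarith) (by positivity) ((Nat.cast_nonneg _).trans h2)

/-! ### integer version -/

/-- residues `v` modulo `D` with `D ∣ c + (g v)²` -/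
def bb4Z (g : ℕ) (c : ℤ) (D : ℕ) : Finset ℕ :=
  (range D).filter fun v => (D : ℤ) ∣ c + ((g : ℤ) * (v : ℤ)) ^ 2

theorem bb4Z_dvd (g : ℕ) (c : ℤ) (a v v' : ℕ) (h : v ≡ v' [MOD a])
    (hd : (a : ℤ) ∣ c + ((g : ℤ) * (v : ℤ)) ^ 2) : (a : ℤ) ∣ c + ((g : ℤ) * (v' : ℤ)) ^ 2 := by
  have h1 : (v : ℤ) ≡ (v' : ℤ) [ZMOD (a : ℤ)] := (Int.natCast_modEq_iff).2 h
  have h2 : c + ((g : ℤ) * (v : ℤ)) ^ 2 ≡ c + ((g : ℤ) * (v' : ℤ)) ^ 2 [ZMOD (a : ℤ)] :=
    Int.ModEq.add_left _ ((h1.mul_left _).pow 2)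
  exact Int.modEq_zero_iff_dvd.1 (h2.symm.trans (Int.modEq_zero_iff_dvd.2 hd))

theorem bb4Z_mul (g : ℕ) (c : ℤ) (a b : ℕ) (ha : 0 < a) (hb : 0 < b) (hab : a.Coprime b) :
    (bb4Z g c (a * b)).card ≤ (bb4Z g c a).card * (bb4Z g c b).card := by
  rw [← card_product]
  refine card_le_card_of_injOn (fun v => (v % a, v % b)) ?_ ?_
  · intro v hv
    rw [mem_coe, bb4Z, mem_filter] at hv
    rw [mem_coe, mem_product, bb4Z, bb4Z, mem_filter, mem_filter, mem_range, mem_range]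
    exact ⟨⟨Nat.mod_lt _ ha, bb4Z_dvd g c a v _ (Nat.mod_modEq v a).symm
        ((by push_cast; exact dvd_mul_right _ _ : (a : ℤ) ∣ ((a * b : ℕ) : ℤ)).trans hv.2)⟩,
      ⟨Nat.mod_lt _ hb, bb4Z_dvd g c b v _ (Nat.mod_modEq v b).symm
        ((by push_cast; exact dvd_mul_left _ _ : (b : ℤ) ∣ ((a * b : ℕ) : ℤ)).trans hv.2)⟩⟩
  · intro v hv v' hv' he
    rw [mem_coe, bb4Z, mem_filter, mem_range] at hv hv'
    simp only [Prod.mk.injEq] at he
    have h1 : v ≡ v' [MOD a * b] :=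
      (Nat.modEq_and_modEq_iff_modEq_mul hab).1 ⟨he.1, he.2⟩
    exact Nat.ModEq.eq_of_lt_of_lt h1 hv.1 hv'.1

theorem bb4Z_prime (μ ℓ : ℕ) (c : ℤ) (hℓ : ℓ.Prime) (h2 : 2 < ℓ) : (bb4Z (2 ^ μ) c ℓ).card ≤ 2 := by
  rcases (bb4Z (2 ^ μ) c ℓ).eq_empty_or_nonempty with h | ⟨v₀, hv₀⟩
  · rw [h]; simp
  · have hsub : bb4Z (2 ^ μ) c ℓ ⊆ {v₀, ℓ - v₀} := by
      intro v hv
      rw [bb4Z, mem_filter, mem_range] at hv hv₀
      have h3 := dvd_sub hv.2 hv₀.2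
      have h4 : c + (((2 ^ μ : ℕ) : ℤ) * (v : ℤ)) ^ 2 - (c + (((2 ^ μ : ℕ) : ℤ) * (v₀ : ℤ)) ^ 2)
          = ((2 : ℤ) ^ μ) ^ 2 * (((v : ℤ) - v₀) * ((v : ℤ) + v₀)) := by
        push_cast; ring
      rw [h4] at h3
      have hp : Prime (ℓ : ℤ) := Nat.prime_iff_prime_int.1 hℓ
      rcases hp.dvd_or_dvd h3 with h5 | h5
      · exfalso
        have h6 := hp.dvd_of_dvd_pow (hp.dvd_of_dvd_pow h5)
        have h7 : ℓ ∣ 2 := by exact_mod_cast h6
        have := Nat.le_of_dvd (by norm_num) h7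
        omega
      · rw [mem_insert, mem_singleton]
        rcases hp.dvd_or_dvd h5 with h6 | h6
        · left
          obtain ⟨k, hk⟩ := h6
          have hk0 : k = 0 := by
            by_contra hne
            rcases lt_or_gt_of_ne hne with h8 | h8
            · nlinarith [hv.1, hv₀.1]
            · nlinarith [hv.1, hv₀.1]
          subst hk0
          omega
        · obtain ⟨k, hk⟩ := h6
          have hk1 : k = 0 ∨ k = 1 := by
            have h8 : 0 ≤ k := by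
              by_contra hlt
              push Not at hlt
              nlinarith [hv.1, hv₀.1]
            have h9 : k < 2 := by
              by_contra hge
              push Not at hge
              nlinarith [hv.1, hv₀.1]
            omega
          rcases hk1 with h8 | h8
          · subst h8; left; omega
          · subst h8; right; omega
    exact (card_le_card hsub).trans card_le_two

theorem bb4Z_prod (μ : ℕ) (c : ℤ) (S : Finset ℕ) (hS : ∀ ℓ ∈ S, ℓ.Prime) (hS2 : ∀ ℓ ∈ S, 2 < ℓ) :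
    (bb4Z (2 ^ μ) c (∏ ℓ ∈ S, ℓ)).card ≤ 2 ^ S.card := by
  induction S using Finset.induction_on with
  | empty =>
    rw [prod_empty, card_empty, pow_zero]
    calc (bb4Z (2 ^ μ) c 1).card ≤ (range 1).card := card_filter_le _ _
      _ = 1 := by simp
  | insert q S hq ih =>
    rw [prod_insert hq, card_insert_of_notMem hq, pow_succ']
    have hS' : ∀ ℓ ∈ S, ℓ.Prime := fun ℓ hℓ => hS ℓ (mem_insert_of_mem hℓ)
    have hqp : q.Prime := hS q (mem_insert_self _ _)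
    refine (bb4Z_mul _ c q _ hqp.pos (prod_pos (fun ℓ hℓ => (hS' ℓ hℓ).pos)) ?_).trans
      (Nat.mul_le_mul (bb4Z_prime μ q c hqp (hS2 q (mem_insert_self _ _)))
        (ih hS' (fun ℓ hℓ => hS2 ℓ (mem_insert_of_mem hℓ))))
    refine Nat.Coprime.prod_right (fun ℓ hℓ => ?_)
    exact (Nat.coprime_primes hqp (hS' ℓ hℓ)).2 (fun e => hq (e ▸ hℓ))

/-- without sieve, trivial, for any integer -/
theorem ycount_trivial (μ D Y : ℕ) (c : ℤ) (hD : Squarefree D) (h5 : ∀ ℓ ∈ D.primeFactors, 2 < ℓ) :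
    (((Icc 1 Y).filter fun y : ℕ => (D : ℤ) ∣ c + (2 ^ μ * (y : ℤ)) ^ 2).card : ℝ)
      ≤ 2 ^ D.primeFactors.card * ((Y : ℝ) / D + 1) := by
  have hD0 : 0 < D := Nat.pos_of_ne_zero hD.ne_zero
  have hcard : (bb4Z (2 ^ μ) c D).card ≤ 2 ^ D.primeFactors.card := by
    have := bb4Z_prod μ c D.primeFactors (fun ℓ hℓ => Nat.prime_of_mem_primeFactors hℓ) h5
    rwa [Nat.prod_primeFactors_of_squarefree hD] at this
  have h1 : ((Icc 1 Y).filter fun y : ℕ => (D : ℤ) ∣ c + (2 ^ μ * (y : ℤ)) ^ 2).card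
      ≤ (bb4Z (2 ^ μ) c D).card * (Y / D + 1) := by
    rw [card_eq_sum_card_fiberwise (f := fun y => y % D) (t := bb4Z (2 ^ μ) c D)]
    · rw [← smul_eq_mul, ← sum_const]
      refine sum_le_sum (fun v _ => ?_)
      rw [filter_filter]
      exact bb4_fiber D Y v _
    · intro y hy
      rw [mem_coe, mem_filter] at hy
      rw [mem_coe, bb4Z, mem_filter, mem_range]
      refine ⟨Nat.mod_lt _ hD0, bb4Z_dvd _ c D y _ (Nat.mod_modEq y D).symm ?_⟩
      push_cast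
      exact hy.2
  have h3 : ((Y / D : ℕ) : ℝ) ≤ (Y : ℝ) / D := Nat.cast_div_le
  have h4 : ((bb4Z (2 ^ μ) c D).card : ℝ) ≤ 2 ^ D.primeFactors.card := by exact_mod_cast hcard
  calc (((Icc 1 Y).filter fun y : ℕ => (D : ℤ) ∣ c + (2 ^ μ * (y : ℤ)) ^ 2).card : ℝ)
      ≤ (bb4Z (2 ^ μ) c D).card * (((Y / D : ℕ) : ℝ) + 1) := by exact_mod_cast h1
    _ ≤ 2 ^ D.primeFactors.card * ((Y : ℝ) / D + 1) := by
        refine mul_le_mul h4 (by linarith) (by positivity) (by positivity)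

/-! ### the sieve -/

/-- the residues to be removed -/
def bb4C (g M D v ℓ : ℕ) : Finset ℕ :=
  if ℓ.Prime ∧ 3 < ℓ ∧ ¬ ℓ ∣ D then
    (range ℓ).filter fun c => ℓ ∣ M + (g * (v + D * (c + (ℓ - 1)))) ^ 2 else ∅

theorem bb4_phi_inj (D v ℓ : ℕ) (hcop : D.Coprime ℓ) :
    Set.InjOn (fun c => (v + D * (c + (ℓ - 1))) % ℓ) (range ℓ : Set ℕ) := by
  intro c hc c' hc' he
  rw [mem_coe, mem_range] at hc hc'
  have h4 : v + D * (c + (ℓ - 1)) ≡ v + D * (c' + (ℓ - 1)) [MOD ℓ] := he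
  have h5 := Nat.ModEq.add_left_cancel' v h4
  have h6 := Nat.ModEq.cancel_left_of_coprime (by rw [Nat.coprime_comm.1 hcop]) h5
  have h7 := Nat.ModEq.add_right_cancel' _ h6
  exact Nat.ModEq.eq_of_lt_of_lt h7 hc hc'

theorem bb4_phi_surj (D v ℓ y : ℕ) (hcop : D.Coprime ℓ) (hy : y < ℓ) :
    ∃ c ∈ range ℓ, (v + D * (c + (ℓ - 1))) % ℓ = y := by
  have h1 : (range ℓ).image (fun c => (v + D * (c + (ℓ - 1))) % ℓ) = range ℓ := by
    apply eq_of_subset_of_card_le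
    · intro x hx
      rw [mem_image] at hx
      obtain ⟨c, hc, rfl⟩ := hx
      rw [mem_range] at hc ⊢
      exact Nat.mod_lt _ (by omega)
    · rw [card_image_of_injOn (bb4_phi_inj D v ℓ hcop)]
  have h2 : y ∈ (range ℓ).image (fun c => (v + D * (c + (ℓ - 1))) % ℓ) := by
    rw [h1]; exact mem_range.2 hy
  rw [mem_image] at h2
  exact h2

theorem bb4C_card (μ M D v ℓ : ℕ) (hM : M % 4 = 3) (hℓ : ℓ.Prime) (h3 : 3 < ℓ) (hD : ¬ ℓ ∣ D) :
    ((bb4C (2 ^ μ) M D v ℓ).card : ℝ) = 1 + J ℓ M := by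
  have h2 : ℓ ≠ 2 := by omega
  have hg : ¬ ℓ ∣ 2 ^ μ := by
    intro h
    exact h2 ((Nat.prime_dvd_prime_iff_eq hℓ Nat.prime_two).1 (hℓ.dvd_of_dvd_pow h))
  rw [← roots ℓ M (2 ^ μ) hℓ h2 hM hg]
  congr 1
  rw [bb4C, if_pos ⟨hℓ, h3, hD⟩]
  have hcop : D.Coprime ℓ := (Nat.Coprime.symm ((Nat.Prime.coprime_iff_not_dvd hℓ).2 hD))
  refine card_nbij (fun c => (v + D * (c + (ℓ - 1))) % ℓ) ?_ ?_ ?_
  · intro c hc
    rw [mem_coe, mem_filter] at hc
    rw [mem_coe, mem_filter, mem_range]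
    exact ⟨Nat.mod_lt _ hℓ.pos, bb4_dvd _ M ℓ _ _ (Nat.mod_modEq _ ℓ).symm hc.2⟩
  · exact (bb4_phi_inj D v ℓ hcop).mono (by
      rw [coe_subset]; exact filter_subset _ _)
  · intro y hy
    rw [mem_coe, mem_filter, mem_range] at hy
    obtain ⟨c, hc, rfl⟩ := bb4_phi_surj D v ℓ y hcop hy.1
    refine ⟨c, ?_, rfl⟩
    rw [mem_coe, mem_filter]
    exact ⟨hc, bb4_dvd _ M ℓ _ _ (Nat.mod_modEq _ ℓ) hy.2⟩

open Classical in
theorem ycount : ∃ B : ℕ, ∀ (r μ D M Y : ℕ), Squarefree D → (∀ ℓ ∈ D.primeFactors, 3 < ℓ) →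
    M % 24 = 23 →
    (((Icc 1 Y).filter fun y => ∃ p, p.Prime ∧ Z r < p ∧ M + (2 ^ μ * y) ^ 2 = 3 * D * p).card : ℝ)
      ≤ (∏ ℓ ∈ D.primeFactors, (1 + J ℓ M)) * (2 * ((Y : ℝ) / D + 1) *
          ∏ ℓ ∈ (Nat.primesLE (Z r)).filter (fun ℓ => 3 < ℓ ∧ ¬ ℓ ∣ D), (1 - (1 + J ℓ M) / ℓ)
        + (Z r : ℝ) ^ B) := by
  obtain ⟨B, hB⟩ := Pool.Agent.Lib.BrunHooley.interval_sieve 2
  refine ⟨B, ?_⟩
  intro r μ D M Y hD h3' hM24
  have h5 : ∀ ℓ ∈ D.primeFactors, 2 < ℓ := fun ℓ hℓ => by have := h3' ℓ hℓ; omega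
  have hM : M % 4 = 3 := by omega
  have hD0 : 0 < D := Nat.pos_of_ne_zero hD.ne_zero
  set g := 2 ^ μ with hg
  set H := Y / D + 1 with hH
  set Wp := ∏ ℓ ∈ (Nat.primesLE (Z r)).filter (fun ℓ => 3 < ℓ ∧ ¬ ℓ ∣ D), (1 - (1 + J ℓ M) / (ℓ : ℝ))
    with hW
  have hW0 : 0 ≤ Wp := by
    refine prod_nonneg (fun ℓ hℓ => ?_)
    rw [mem_filter] at hℓ
    have h3 : (3 : ℝ) < ℓ := by exact_mod_cast hℓ.2.1
    have h4 : (1 + J ℓ M) / ℓ ≤ 1 := by
      rw [div_le_one (by linarith)]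
      linarith [(bb4_J ℓ M).2]
    linarith
  -- conditions of the sieve
  have hC2 : ∀ v ℓ, (bb4C g M D v ℓ).card ≤ 2 := by
    intro v ℓ
    by_cases h : ℓ.Prime ∧ 3 < ℓ ∧ ¬ ℓ ∣ D
    · have h1 := bb4C_card μ M D v ℓ hM h.1 h.2.1 h.2.2
      have h2 : ((bb4C g M D v ℓ).card : ℝ) ≤ 2 := by
        rw [h1]; linarith [(bb4_J ℓ M).2]
      exact_mod_cast h2
    · rw [bb4C, if_neg h]; simp
  have hClt : ∀ v ℓ, ℓ.Prime → ∀ c ∈ bb4C g M D v ℓ, c < ℓ := by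
    intro v ℓ hℓ c hc
    rw [bb4C] at hc
    split_ifs at hc with h
    · exact mem_range.1 (mem_filter.1 hc).1
    · simp at hc
  have hCcard : ∀ v ℓ, ℓ.Prime → (bb4C g M D v ℓ).card < ℓ := by
    intro v ℓ hℓ
    by_cases h : ℓ.Prime ∧ 3 < ℓ ∧ ¬ ℓ ∣ D
    · exact (hC2 v ℓ).trans_lt (by omega)
    · rw [bb4C, if_neg h]; simpa using hℓ.pos
  have hprod : ∀ v, ∏ p ∈ Nat.primesLE (Z r), (1 - ((bb4C g M D v p).card : ℝ) / p) = Wp := by
    intro v
    rw [hW, prod_filter]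
    refine prod_congr rfl (fun ℓ hℓ => ?_)
    have hp : ℓ.Prime := (Nat.mem_primesLE.1 hℓ).2
    split_ifs with h
    · rw [bb4C_card μ M D v ℓ hM hp h.1 h.2]
    · have : bb4C g M D v ℓ = ∅ := by
        rw [bb4C, if_neg (fun h' => h h'.2)]
      rw [this]; simp
  -- the fibres
  have hfib : ∀ v, (((Icc 1 Y).filter fun y =>
      (∃ p, p.Prime ∧ Z r < p ∧ M + (g * y) ^ 2 = 3 * D * p) ∧ y % D = v).card : ℝ)
      ≤ 2 * H * Wp + (Z r : ℝ) ^ B := by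
    intro v
    have h1 := (hB r 0 H (bb4C g M D v) (hClt v) (hC2 v) (hCcard v)).2
    rw [hprod v] at h1
    refine le_trans ?_ h1
    rw [Nat.cast_le]
    refine card_le_card_of_injOn (fun y => y / D + 1) ?_ ?_
    · intro y hy
      rw [mem_coe, mem_filter, mem_Icc] at hy
      obtain ⟨⟨-, hyY⟩, ⟨p, hp, hpZ, he⟩, hyv⟩ := hy
      rw [mem_coe, Pool.Agent.Lib.BrunHooley.sifted, mem_filter, mem_Ioc]
      refine ⟨⟨Nat.succ_pos _, ?_⟩, ?_⟩
      · rw [zero_add, hH]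
        exact Nat.add_le_add_right (Nat.div_le_div_right hyY) 1
      · intro ℓ hℓ hmem
        obtain ⟨hℓZ, hℓp⟩ := Nat.mem_primesLE.1 hℓ
        rw [bb4C] at hmem
        split_ifs at hmem with hc
        · rw [mem_filter] at hmem
          have h2 := hmem.2
          have h3 : v + D * ((y / D + 1) % ℓ + (ℓ - 1)) ≡ y [MOD ℓ] := by
            have e1 : (y / D + 1) % ℓ + (ℓ - 1) ≡ y / D [MOD ℓ] := by
              calc (y / D + 1) % ℓ + (ℓ - 1) ≡ (y / D + 1) + (ℓ - 1) [MOD ℓ] :=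
                    Nat.ModEq.add_right _ (Nat.mod_modEq _ _)
                _ = y / D + ℓ := by have := hℓp.pos; omega
                _ ≡ y / D [MOD ℓ] := by
                    simp [Nat.ModEq]
            have e2 : v + D * (y / D) = y := by
              rw [← hyv]; exact Nat.mod_add_div y D
            calc v + D * ((y / D + 1) % ℓ + (ℓ - 1)) ≡ v + D * (y / D) [MOD ℓ] :=
                  Nat.ModEq.add_left _ (e1.mul_left D)
              _ = y := e2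
          have h4 := bb4_dvd g M ℓ _ _ h3 h2
          rw [he] at h4
          rcases (Nat.Prime.dvd_mul hℓp).1 h4 with h6 | h6
          · rcases (Nat.Prime.dvd_mul hℓp).1 h6 with h7 | h7
            · have := Nat.le_of_dvd (by norm_num) h7
              omega
            · exact hc.2.2 h7
          · have := (Nat.prime_dvd_prime_iff_eq hℓp hp).1 h6
            omega
        · simp at hmem
    · intro y hy y' hy' he
      rw [mem_coe, mem_filter] at hy hy'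
      have he' : y / D = y' / D := by
        have : y / D + 1 = y' / D + 1 := he
        omega
      rw [← Nat.div_add_mod y D, ← Nat.div_add_mod y' D, he', hy.2.2, hy'.2.2]
  have hsplit : (((Icc 1 Y).filter fun y =>
      ∃ p, p.Prime ∧ Z r < p ∧ M + (g * y) ^ 2 = 3 * D * p).card : ℝ)
      ≤ (bb4R g M D).card * (2 * H * Wp + (Z r : ℝ) ^ B) := by
    rw [card_eq_sum_card_fiberwise (f := fun y => y % D) (t := bb4R g M D)]
    · push_cast
      rw [← nsmul_eq_mul, ← sum_const]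
      refine sum_le_sum (fun v _ => ?_)
      rw [filter_filter]
      exact hfib v
    · intro y hy
      rw [mem_coe, mem_filter] at hy
      obtain ⟨-, p, -, -, he⟩ := hy
      rw [mem_coe, bb4R, mem_filter, mem_range]
      refine ⟨Nat.mod_lt _ hD0, bb4_dvd _ M D y _ (Nat.mod_modEq y D).symm ?_⟩
      rw [he]
      exact ⟨3 * p, by ring⟩
  have h2 := bb4_card μ D M hD h5 hM
  have h3 : ((Y / D : ℕ) : ℝ) ≤ (Y : ℝ) / D := Nat.cast_div_le
  have hHr : (H : ℝ) ≤ (Y : ℝ) / D + 1 := by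
    rw [hH]; push_cast; linarith
  refine hsplit.trans ?_
  have hpos : 0 ≤ 2 * (H : ℝ) * Wp + (Z r : ℝ) ^ B := by positivity
  calc ((bb4R g M D).card : ℝ) * (2 * H * Wp + (Z r : ℝ) ^ B)
      ≤ (∏ ℓ ∈ D.primeFactors, (1 + J ℓ M)) * (2 * H * Wp + (Z r : ℝ) ^ B) :=
        mul_le_mul_of_nonneg_right h2 hpos
    _ ≤ (∏ ℓ ∈ D.primeFactors, (1 + J ℓ M)) * (2 * ((Y : ℝ) / D + 1) * Wp + (Z r : ℝ) ^ B) := by
        refine mul_le_mul_of_nonneg_left ?_ ((Nat.cast_nonneg _).trans h2)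
        have := mul_le_mul_of_nonneg_right hHr hW0
        linarith

end Pool.Agent.helper7.OC
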