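import Pool.Agent.helper7.OC.Defs
import Pool.Agent.Lib.SieveInterval
import Pool.Agent.helper22.PD.Mertens2

/-! Project OC, module BB5: the sieve product. -/

set_option autoImplicit false

open Finset
open Pool.Agent.Lib.BrunHooley (Z)

namespace Pool.Agent.helper7.OC

theorem bb5_J (ℓ M : ℕ) : -1 ≤ J ℓ M ∧ J ℓ M ≤ 1 := by
  unfold J
  rcases jacobiSym.trichotomy (ℓ : ℤ) M with h | h | h <;> rw [h] <;> constructor <;> norm_num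

theorem prodbound : ∃ C : ℝ, 0 < C ∧ ∀ (r a M D : ℕ), 1 ≤ a → a ≤ 2 ^ r → D ≠ 0 →
    -2 ≤ cs (PA (2 ^ a) (Z r)) M → hs D.primeFactors ≤ 1 →
    ∏ ℓ ∈ (Nat.primesLE (Z r)).filter (fun ℓ => 3 < ℓ ∧ ¬ ℓ ∣ D), (1 - (1 + J ℓ M) / ℓ)
      ≤ C * a / 2 ^ r := by
  obtain ⟨C₀, hC₀, hM⟩ := Pool.Agent.helper22.PD.mertens_second
  have hl2 : 0 < Real.log 2 := Real.log_pos (by norm_num)
  refine ⟨Real.exp (C₀ / Real.log 2 + 6), Real.exp_pos _, ?_⟩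
  intro r a M D ha har hD hcs hhs
  set f : ℕ → ℝ := fun ℓ => (1 + J ℓ M) / ℓ with hf
  have hf0 : ∀ ℓ, 0 ≤ f ℓ := fun ℓ => div_nonneg (by linarith [(bb5_J ℓ M).1]) (Nat.cast_nonneg ℓ)
  have hf2 : ∀ ℓ, f ℓ ≤ 2 * (1 / ℓ) := by
    intro ℓ
    have h1 := (bb5_J ℓ M).2
    have : (1 + J ℓ M) / ℓ ≤ 2 / ℓ := div_le_div_of_nonneg_right (by linarith) (Nat.cast_nonneg ℓ)
    calc f ℓ ≤ 2 / ℓ := this
      _ = 2 * (1 / ℓ) := by ring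
  set F := (Nat.primesLE (Z r)).filter (fun ℓ => 3 < ℓ ∧ ¬ ℓ ∣ D) with hFdef
  set F' := (PA (2 ^ a) (Z r)).filter (fun ℓ => 3 < ℓ ∧ ¬ ℓ ∣ D) with hF'def
  have hsub : F' ⊆ F := by
    intro ℓ hℓ
    rw [hF'def, mem_filter, PA, mem_filter, mem_Ioc] at hℓ
    rw [hFdef, mem_filter, Nat.mem_primesLE]
    exact ⟨⟨hℓ.1.1.2, hℓ.1.2⟩, hℓ.2⟩
  -- the product is at most the exponential
  have h1 : ∏ ℓ ∈ F, (1 - (1 + J ℓ M) / ℓ) ≤ Real.exp (-∑ ℓ ∈ F, f ℓ) := by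
    rw [← sum_neg_distrib, Real.exp_sum]
    refine prod_le_prod ?_ ?_
    · intro ℓ hℓ
      rw [hFdef, mem_filter] at hℓ
      have h3 : (3 : ℝ) < ℓ := by exact_mod_cast hℓ.2.1
      have h4 : (1 + J ℓ M) / ℓ ≤ 1 := by
        rw [div_le_one (by linarith)]
        linarith [(bb5_J ℓ M).2]
      linarith
    · intro ℓ _
      have := Real.add_one_le_exp (-f ℓ)
      show 1 - f ℓ ≤ _
      linarith
  have h2 : ∑ ℓ ∈ F', f ℓ ≤ ∑ ℓ ∈ F, f ℓ := sum_le_sum_of_subset_of_nonneg hsub (fun ℓ _ _ => hf0 ℓ)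
  have h3 : ∑ ℓ ∈ PA (2 ^ a) (Z r), f ℓ ≤ ∑ ℓ ∈ F', f ℓ + (5 / 3 + 2) := by
    rw [← sum_filter_add_sum_filter_not (PA (2 ^ a) (Z r)) (fun ℓ => 3 < ℓ ∧ ¬ ℓ ∣ D)]
    refine add_le_add le_rfl ?_
    have hsub2 : (PA (2 ^ a) (Z r)).filter (fun ℓ => ¬ (3 < ℓ ∧ ¬ ℓ ∣ D)) ⊆
        {2, 3} ∪ D.primeFactors := by
      intro ℓ hℓ
      rw [mem_filter, PA, mem_filter] at hℓ
      obtain ⟨⟨-, hp⟩, hn⟩ := hℓ
      rw [mem_union, Nat.mem_primeFactors]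
      by_cases h3 : 3 < ℓ
      · right
        have h4 : ℓ ∣ D := by
          by_contra h
          exact hn ⟨h3, h⟩
        exact ⟨hp, h4, hD⟩
      · left
        have := hp.two_le
        simp only [mem_insert, mem_singleton]
        omega
    calc ∑ ℓ ∈ (PA (2 ^ a) (Z r)).filter (fun ℓ => ¬ (3 < ℓ ∧ ¬ ℓ ∣ D)), f ℓ
        ≤ ∑ ℓ ∈ {2, 3} ∪ D.primeFactors, f ℓ :=
          sum_le_sum_of_subset_of_nonneg hsub2 (fun ℓ _ _ => hf0 ℓ)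
      _ ≤ ∑ ℓ ∈ {2, 3} ∪ D.primeFactors, 2 * (1 / (ℓ : ℝ)) := sum_le_sum (fun ℓ _ => hf2 ℓ)
      _ ≤ ∑ ℓ ∈ ({2, 3} : Finset ℕ), 2 * (1 / (ℓ : ℝ)) + ∑ ℓ ∈ D.primeFactors, 2 * (1 / (ℓ : ℝ)) := by
          rw [← sum_union_inter]
          exact le_add_of_nonneg_right (sum_nonneg (fun ℓ _ => by positivity))
      _ ≤ 5 / 3 + 2 := by
          refine add_le_add ?_ ?_
          · rw [sum_pair (by norm_num)]; norm_num
          · rw [← mul_sum]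
            unfold hs at hhs
            linarith
  have h4 : ∑ ℓ ∈ PA (2 ^ a) (Z r), f ℓ = hs (PA (2 ^ a) (Z r)) + cs (PA (2 ^ a) (Z r)) M := by
    unfold hs cs
    rw [← sum_add_distrib]
    refine sum_congr rfl (fun ℓ _ => ?_)
    rw [hf]
    show (1 + J ℓ M) / (ℓ : ℝ) = _
    rw [add_div]
  have h2a : 2 ≤ 2 ^ a := by
    calc 2 = 2 ^ 1 := rfl
      _ ≤ 2 ^ a := Nat.pow_le_pow_right (by norm_num) ha
  have h5 := hM (2 ^ a) (Z r) h2a (Nat.pow_le_pow_right (by norm_num) har)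
  have h6 : Real.log ((2 ^ a : ℕ) : ℝ) = a * Real.log 2 := by
    push_cast; rw [Real.log_pow]
  have h7 : Real.log ((Z r : ℕ) : ℝ) = 2 ^ r * Real.log 2 := by
    unfold Z
    push_cast
    rw [Real.log_pow]
    push_cast
    rfl
  have ha0 : (0 : ℝ) < a := by exact_mod_cast ha
  have ha1 : (1 : ℝ) ≤ a := by exact_mod_cast ha
  have h8 : Real.log (Real.log ((Z r : ℕ) : ℝ)) - Real.log (Real.log ((2 ^ a : ℕ) : ℝ))
      = Real.log (2 ^ r) - Real.log a := by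
    rw [h6, h7, Real.log_mul (by positivity) hl2.ne', Real.log_mul ha0.ne' hl2.ne']
    ring
  have h9 : C₀ / Real.log ((2 ^ a : ℕ) : ℝ) ≤ C₀ / Real.log 2 := by
    rw [h6]
    apply div_le_div_of_nonneg_left hC₀.le hl2
    nlinarith
  have h10 : Real.log (2 ^ r) - Real.log a - C₀ / Real.log 2 ≤ hs (PA (2 ^ a) (Z r)) := by
    have e : ∑ p ∈ (Ioc (2 ^ a) (Z r)).filter Nat.Prime, 1 / (p : ℝ) = hs (PA (2 ^ a) (Z r)) := rfl
    rw [e, h8] at h5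
    linarith
  have h11 : -∑ ℓ ∈ F, f ℓ ≤ (C₀ / Real.log 2 + 6) + (Real.log a - Real.log (2 ^ r)) := by
    rw [h4] at h3
    linarith
  calc ∏ ℓ ∈ F, (1 - (1 + J ℓ M) / ℓ) ≤ Real.exp (-∑ ℓ ∈ F, f ℓ) := h1
    _ ≤ Real.exp ((C₀ / Real.log 2 + 6) + (Real.log a - Real.log (2 ^ r))) := Real.exp_le_exp.2 h11
    _ = Real.exp (C₀ / Real.log 2 + 6) * a / 2 ^ r := by
        rw [Real.exp_add, Real.exp_sub, Real.exp_log ha0, Real.exp_log (by positivity)]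
        ring

end Pool.Agent.helper7.OC
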