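import Pool.Agent.helper7.OC.Defs

/-! Project OC, module BB7: elementary symmetric sums. -/

set_option autoImplicit false

open Finset

namespace Pool.Agent.helper7.OC

theorem bb7_step (L : Finset ℕ) (K : ℕ) (f : ℕ → ℝ) :
    ((K : ℝ) + 1) * esum L (K + 1) f
      = ∑ T ∈ L.powersetCard K, (∏ ℓ ∈ T, f ℓ) * ∑ ℓ ∈ L \ T, f ℓ := by
  have h1 : ((K : ℝ) + 1) * esum L (K + 1) f
      = ∑ T ∈ L.powersetCard (K + 1), ∑ _ℓ ∈ T, ∏ ℓ ∈ T, f ℓ := by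
    unfold esum
    rw [mul_sum]
    refine sum_congr rfl (fun T hT => ?_)
    rw [sum_const, (mem_powersetCard.1 hT).2, nsmul_eq_mul]
    push_cast
    ring
  rw [h1, sum_sigma']
  simp only [mul_sum]
  rw [sum_sigma']
  refine sum_bij' (fun x _ => ⟨x.1.erase x.2, x.2⟩) (fun x _ => ⟨insert x.2 x.1, x.2⟩)
    ?_ ?_ ?_ ?_ ?_
  · rintro ⟨T, ℓ⟩ hx
    simp only [mem_sigma, mem_powersetCard, mem_sdiff] at hx ⊢
    obtain ⟨⟨hT, hc⟩, hℓ⟩ := hx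
    refine ⟨⟨(erase_subset _ _).trans hT, ?_⟩, hT hℓ, ?_⟩
    · rw [card_erase_of_mem hℓ, hc]; rfl
    · simp
  · rintro ⟨T, ℓ⟩ hx
    simp only [mem_sigma, mem_powersetCard, mem_sdiff] at hx ⊢
    obtain ⟨⟨hT, hc⟩, hℓ, hℓT⟩ := hx
    refine ⟨⟨insert_subset hℓ hT, ?_⟩, mem_insert_self _ _⟩
    rw [card_insert_of_notMem hℓT, hc]
  · rintro ⟨T, ℓ⟩ hx
    simp only [mem_sigma] at hx
    simp only [insert_erase hx.2]
  · rintro ⟨T, ℓ⟩ hx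
    simp only [mem_sigma, mem_sdiff] at hx
    simp only [erase_insert hx.2.2]
  · rintro ⟨T, ℓ⟩ hx
    simp only [mem_sigma] at hx
    show ∏ ℓ ∈ T, f ℓ = (∏ ℓ' ∈ T.erase ℓ, f ℓ') * f ℓ
    rw [prod_erase_mul _ _ hx.2]

theorem bb7_nonneg (L : Finset ℕ) (K : ℕ) (f : ℕ → ℝ) (hf : ∀ ℓ ∈ L, 0 ≤ f ℓ) : 0 ≤ esum L K f :=
  sum_nonneg (fun _ hT => prod_nonneg (fun ℓ hℓ => hf ℓ ((mem_powersetCard.1 hT).1 hℓ)))

theorem esum_le (L : Finset ℕ) (K : ℕ) (f : ℕ → ℝ) (hf : ∀ ℓ ∈ L, 0 ≤ f ℓ) :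
    esum L K f ≤ (∑ ℓ ∈ L, f ℓ) ^ K / K.factorial := by
  have hs : 0 ≤ ∑ ℓ ∈ L, f ℓ := sum_nonneg hf
  induction K with
  | zero => simp [esum]
  | succ K ih =>
    have h1 := bb7_step L K f
    have h2 : ∑ T ∈ L.powersetCard K, (∏ ℓ ∈ T, f ℓ) * ∑ ℓ ∈ L \ T, f ℓ
        ≤ esum L K f * ∑ ℓ ∈ L, f ℓ := by
      unfold esum
      rw [sum_mul]
      refine sum_le_sum (fun T hT => ?_)
      refine mul_le_mul_of_nonneg_left ?_
        (prod_nonneg (fun ℓ hℓ => hf ℓ ((mem_powersetCard.1 hT).1 hℓ)))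
      exact sum_le_sum_of_subset_of_nonneg sdiff_subset (fun ℓ hℓ _ => hf ℓ hℓ)
    have h3 : esum L K f * ∑ ℓ ∈ L, f ℓ ≤ (∑ ℓ ∈ L, f ℓ) ^ K / K.factorial * ∑ ℓ ∈ L, f ℓ :=
      mul_le_mul_of_nonneg_right ih hs
    have hK : (0 : ℝ) < (K : ℝ) + 1 := by positivity
    have hfac : (0 : ℝ) < K.factorial := by exact_mod_cast K.factorial_pos
    rw [Nat.factorial_succ, pow_succ, le_div_iff₀ (by push_cast; positivity)]
    push_cast
    have h4 : (∑ ℓ ∈ L, f ℓ) ^ K / K.factorial * (∑ ℓ ∈ L, f ℓ) * K.factorial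
        = (∑ ℓ ∈ L, f ℓ) ^ K * ∑ ℓ ∈ L, f ℓ := by
      field_simp
    calc esum L (K + 1) f * (((K : ℝ) + 1) * K.factorial)
        = ((K : ℝ) + 1) * esum L (K + 1) f * K.factorial := by ring
      _ ≤ (∑ ℓ ∈ L, f ℓ) ^ K / K.factorial * (∑ ℓ ∈ L, f ℓ) * K.factorial := by
          refine mul_le_mul_of_nonneg_right ?_ hfac.le
          rw [h1]; exact h2.trans h3
      _ = _ := h4

theorem esum_ge (L : Finset ℕ) (K : ℕ) (f : ℕ → ℝ) (δ : ℝ) (hf : ∀ ℓ ∈ L, 0 ≤ f ℓ ∧ f ℓ ≤ δ)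
    (hs : 0 < ∑ ℓ ∈ L, f ℓ) :
    (∑ ℓ ∈ L, f ℓ) ^ K / K.factorial * (1 - K ^ 2 * δ / ∑ ℓ ∈ L, f ℓ) ≤ esum L K f := by
  have hf0 : ∀ ℓ ∈ L, 0 ≤ f ℓ := fun ℓ hℓ => (hf ℓ hℓ).1
  have hδ : 0 ≤ δ := by
    rcases L.eq_empty_or_nonempty with h | ⟨ℓ, hℓ⟩
    · rw [h, sum_empty] at hs; exact absurd hs (lt_irrefl _)
    · exact (hf ℓ hℓ).1.trans (hf ℓ hℓ).2
  set s := ∑ ℓ ∈ L, f ℓ with hsdef
  induction K with
  | zero => simp [esum]
  | succ K ih =>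
    have hK : (0 : ℝ) < (K : ℝ) + 1 := by positivity
    have hfac : (0 : ℝ) < K.factorial := by exact_mod_cast K.factorial_pos
    have hfac' : (0 : ℝ) < (K + 1).factorial := by exact_mod_cast (K + 1).factorial_pos
    by_cases hc : (K : ℝ) * δ ≤ s
    · have h1 := bb7_step L K f
      have h2 : esum L K f * (s - K * δ)
          ≤ ∑ T ∈ L.powersetCard K, (∏ ℓ ∈ T, f ℓ) * ∑ ℓ ∈ L \ T, f ℓ := by
        unfold esum
        rw [sum_mul]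
        refine sum_le_sum (fun T hT => ?_)
        obtain ⟨hT1, hT2⟩ := mem_powersetCard.1 hT
        refine mul_le_mul_of_nonneg_left ?_ (prod_nonneg (fun ℓ hℓ => hf0 ℓ (hT1 hℓ)))
        have h3 : ∑ ℓ ∈ L \ T, f ℓ + ∑ ℓ ∈ T, f ℓ = s := sum_sdiff hT1
        have h4 : ∑ ℓ ∈ T, f ℓ ≤ K * δ := by
          calc ∑ ℓ ∈ T, f ℓ ≤ ∑ _ℓ ∈ T, δ := sum_le_sum (fun ℓ hℓ => (hf ℓ (hT1 hℓ)).2)
            _ = K * δ := by rw [sum_const, hT2, nsmul_eq_mul]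
        linarith
      have h5 : s ^ K / K.factorial * (1 - K ^ 2 * δ / s) * (s - K * δ) ≤ esum L K f * (s - K * δ) :=
        mul_le_mul_of_nonneg_right ih (by linarith)
      have h6 : s ^ (K + 1) / K.factorial * (1 - ((K : ℝ) + 1) ^ 2 * δ / s)
          ≤ s ^ K / K.factorial * (1 - K ^ 2 * δ / s) * (s - K * δ) := by
        have e1 : s ^ (K + 1) / K.factorial * (1 - ((K : ℝ) + 1) ^ 2 * δ / s)
            = s ^ K / K.factorial * (s - ((K : ℝ) + 1) ^ 2 * δ) := by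
          field_simp
          ring
        have e2 : s ^ K / K.factorial * (1 - K ^ 2 * δ / s) * (s - K * δ)
            = s ^ K / K.factorial * (s - K * δ - K ^ 2 * δ + K ^ 2 * δ * (K * δ) / s) := by
          field_simp
          ring
        rw [e1, e2]
        apply mul_le_mul_of_nonneg_left _ (by positivity)
        have h7 : 0 ≤ (K : ℝ) ^ 2 * δ * (K * δ) / s := by positivity
        have h8 : (0 : ℝ) ≤ K := Nat.cast_nonneg K
        nlinarith [mul_nonneg h8 hδ]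
      have h9 : s ^ (K + 1) / K.factorial * (1 - ((K : ℝ) + 1) ^ 2 * δ / s)
          ≤ ((K : ℝ) + 1) * esum L (K + 1) f := by
        rw [h1]; exact h6.trans (h5.trans h2)
      have e3 : s ^ (K + 1) / (K + 1).factorial * (1 - ((K + 1 : ℕ) : ℝ) ^ 2 * δ / s)
          = (s ^ (K + 1) / K.factorial * (1 - ((K : ℝ) + 1) ^ 2 * δ / s)) / ((K : ℝ) + 1) := by
        rw [Nat.factorial_succ]
        push_cast
        field_simp
      rw [e3, div_le_iff₀ hK, mul_comm (esum L (K + 1) f)]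
      exact h9
    · push Not at hc
      have h1 : 1 - ((K + 1 : ℕ) : ℝ) ^ 2 * δ / s ≤ 0 := by
        rw [sub_nonpos, le_div_iff₀ hs, one_mul]
        push_cast
        have h8 : (0 : ℝ) ≤ K := Nat.cast_nonneg K
        nlinarith [mul_nonneg h8 hδ, mul_nonneg (mul_nonneg h8 h8) hδ]
      have h2 : s ^ (K + 1) / (K + 1).factorial * (1 - ((K + 1 : ℕ) : ℝ) ^ 2 * δ / s) ≤ 0 :=
        mul_nonpos_of_nonneg_of_nonpos (by positivity) h1
      exact h2.trans (bb7_nonneg L (K + 1) f hf0)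

end Pool.Agent.helper7.OC
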